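import Pool.Agent.Y968.KZ.Zlg

set_option autoImplicit false

/-!
Project KZ (helper192), job KZ10: `t_zlg`, subvarieties of tori with divisors are of log general type
if there is no one-parameter group.
-/

namespace Pool.Agent.Y968.KZ

open FF MvPolynomial Pool.Agent.W602.GT Pool.Agent.Y290.KC Pool.Agent.Y192.OG Pool.Agent.Y192.KC
open Pool.Agent.W603.BP

section units

variable {N : ℕ} {K : Type} [Field K] [Algebra ℂ K]

omit [Algebra ℂ K] in
theorem xm_single (x : Fin N → Kˣ) (i : Fin N) : xm x (Pi.single i 1) = x i := by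
  unfold xm
  rw [Finset.prod_eq_single i]
  · rw [Pi.single_eq_same, zpow_one]
  · intro j _ hj
    rw [Pi.single_eq_of_ne hj, zpow_zero]
  · intro h
    exact absurd (Finset.mem_univ _) h

omit [Algebra ℂ K] in
theorem xm_zsmul (x : Fin N → Kˣ) (n : ℤ) (m : Fin N → ℤ) : xm x (n • m) = xm x m ^ n := by
  unfold xm
  rw [← Finset.prod_zpow]
  refine Finset.prod_congr rfl fun i _ => ?_
  rw [Pi.smul_apply, smul_eq_mul, mul_comm, zpow_mul]

omit [Algebra ℂ K] in
theorem xm_comb {ρ : ℕ} (x : Fin N → Kˣ) (γ : Fin ρ → Fin N → ℤ) (a : Fin ρ → ℤ) :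
    xm x (∑ i, a i • γ i) = xm (fun i => xm x (γ i)) a := by
  have h : ∀ s : Finset (Fin ρ), xm x (∑ i ∈ s, a i • γ i) = ∏ i ∈ s, xm x (γ i) ^ a i := by
    intro s
    classical
    induction s using Finset.induction_on with
    | empty => rw [Finset.sum_empty, Finset.prod_empty, xm_zero]
    | insert i s hi ih => rw [Finset.sum_insert hi, Finset.prod_insert hi, xm_add, ih, xm_zsmul]
  exact h Finset.univ

theorem ord_xm (P : Place ℂ K) (x : Fin N → Kˣ) (hx : ∀ i, P.ord (x i : K) = 0) (m : Fin N → ℤ) :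
    P.ord (xm x m : K) = 0 := by
  have h : ∀ s : Finset (Fin N), P.ord ((∏ i ∈ s, x i ^ m i : Kˣ) : K) = 0 := by
    intro s
    classical
    induction s using Finset.induction_on with
    | empty => rw [Finset.prod_empty, Units.val_one, P.ord_one]
    | insert i s hi ih =>
      rw [Finset.prod_insert hi, Units.val_mul, P.ord_mul (Units.ne_zero _) (Units.ne_zero _), ih,
        Units.val_zpow_eq_zpow_val, P.ord_zpow, hx i]
      simp
  exact h Finset.univ

end units

theorem t_zlg : St_gaussK → St_gaussV → St_deepZ → St_badZ → St_least → St_split → St_lift →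
    St_desc → St_zlg := by
  intro hgK hgV hdeep hbad hleast hsplit hlift hdesc N r K _ _ x F e d hF hT htr hd hred
  classical
  obtain ⟨Γ, hsat, hhom, hmin⟩ := hleast N (RingHom.ker (ep x))
  obtain ⟨b, bt, co, hco, hbt⟩ := Pool.Agent.Y833.OG.basis_exists Γ hsat
  have hs : Splt Γ bt co := ⟨hco, hbt⟩
  obtain ⟨hai, hmon⟩ := hsplit N K x Γ b bt co hs hhom
  -- the field is generated by the `X j`
  have htop : IntermediateField.adjoin (F0 x Γ) (Set.range fun j => (xm x (bt j) : K)) = ⊤ := by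
    rw [eq_top_iff]
    intro z _
    have hle : IntermediateField.adjoin ℂ (Set.range fun i => (x i : K)) ≤
        (IntermediateField.adjoin (F0 x Γ) (Set.range fun j => (xm x (bt j) : K))).restrictScalars ℂ := by
      rw [IntermediateField.adjoin_le_iff]
      rintro _ ⟨i, rfl⟩
      obtain ⟨c, _, hc⟩ := hmon (Pi.single i 1)
      rw [xm_single] at hc
      change (x i : K) ∈ IntermediateField.adjoin (F0 x Γ) (Set.range fun j => (xm x (bt j) : K))
      rw [hc]
      refine mul_mem (IntermediateField.algebraMap_mem _ c) (prod_mem fun j _ => zpow_mem ?_ _)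
      exact IntermediateField.subset_adjoin _ _ ⟨j, rfl⟩
    have h1 : z ∈ IntermediateField.adjoin ℂ (Set.range fun i => (x i : K)) := by
      rw [hT]; trivial
    exact hle h1
  have hXb : IsTranscendenceBasis (F0 x Γ) (fun j => (xm x (bt j) : K)) := by
    rw [hai.isTranscendenceBasis_iff_isAlgebraic]
    refine ⟨fun z => ?_⟩
    have hz : z ∈ IntermediateField.adjoin (F0 x Γ) (Set.range fun j => (xm x (bt j) : K)) := by
      rw [htop]; trivial
    rw [IntermediateField.mem_adjoin_iff_div] at hz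
    obtain ⟨r, hr, s, hs, rfl⟩ := hz
    have h1 : IsAlgebraic (Algebra.adjoin (F0 x Γ) (Set.range fun j => (xm x (bt j) : K))) r :=
      isAlgebraic_algebraMap (⟨r, hr⟩ : Algebra.adjoin (F0 x Γ) (Set.range fun j => (xm x (bt j) : K)))
    have h2 : IsAlgebraic (Algebra.adjoin (F0 x Γ) (Set.range fun j => (xm x (bt j) : K))) s :=
      isAlgebraic_algebraMap (⟨s, hs⟩ : Algebra.adjoin (F0 x Γ) (Set.range fun j => (xm x (bt j) : K)))
    rw [div_eq_mul_inv]
    exact h1.mul h2.inv
  -- transcendence degrees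
  obtain ⟨a, ha, hab⟩ : ∃ a : ℕ, Algebra.trdeg ℂ (F0 x Γ) = a ∧ a + b = d := by
    have h1 := _root_.trdeg_add_eq ℂ (F0 x Γ) (A := K)
    have h2 := hXb.cardinalMk_eq_trdeg
    rw [Cardinal.mk_fin] at h2
    rw [← h2, htr] at h1
    have h3 : Algebra.trdeg ℂ (F0 x Γ) < Cardinal.aleph0 := by
      refine lt_of_le_of_lt ?_ (Cardinal.natCast_lt_aleph0 (n := d))
      rw [← h1]
      exact self_le_add_right _ _
    obtain ⟨a, ha⟩ := Cardinal.lt_aleph0.1 h3
    refine ⟨a, ha, ?_⟩
    rw [ha] at h1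
    exact_mod_cast h1
  -- units of the subfield
  obtain ⟨ρ, γ, Γ', _, _, hγ0, hγ, hΓ', _, _, _, hΓmin⟩ := hdesc N K x Γ Γ hsat hsat le_rfl hhom hmin
  have hγΓ : ∀ i, γ i ∈ Γ := by
    intro i
    rw [hγ]
    refine ⟨Pi.single i 1, ?_⟩
    rw [Finset.sum_eq_single i]
    · rw [Pi.single_eq_same, one_smul]
    · intro j _ hj
      rw [Pi.single_eq_of_ne hj, zero_smul]
    · intro h
      exact absurd (Finset.mem_univ _) h
  let y : Fin ρ → (F0 x Γ)ˣ := fun i => Units.mk0
    ⟨(xm x (γ i) : K), IntermediateField.subset_adjoin _ _ ⟨γ i, hγΓ i, rfl⟩⟩ (by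
      intro h
      exact Units.ne_zero (xm x (γ i)) (congrArg Subtype.val h))
  have hyv : ∀ i, algebraMap (F0 x Γ) K (y i) = (xm x (γ i) : K) := fun i => rfl
  have hym : ∀ m : Fin ρ → ℤ, algebraMap (F0 x Γ) K (xm y m : (F0 x Γ)ˣ) =
      (xm (fun i => xm x (γ i)) m : K) := by
    intro m
    unfold xm
    rw [Units.coe_prod, Units.coe_prod, map_prod]
    refine Finset.prod_congr rfl fun i _ => ?_
    rw [Units.val_zpow_eq_zpow_val, Units.val_zpow_eq_zpow_val, map_zpow₀, hyv]
    rfl
  have hep : ∀ g : Lau ρ, algebraMap (F0 x Γ) K (ep y g) = ep (fun i => xm x (γ i)) g := by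
    intro g
    induction g using AddMonoidAlgebra.induction_linear with
    | zero => simp
    | add f g hf hg => rw [map_add, map_add, map_add, hf, hg]
    | single m c =>
      rw [ep_single, ep_single, Algebra.smul_def, map_mul, hym, Algebra.smul_def]
      rfl
  have hker : ∀ g : Lau ρ, g ∈ RingHom.ker (ep y) ↔ g ∈ RingHom.ker (ep fun i => xm x (γ i)) := by
    intro g
    rw [RingHom.mem_ker, RingHom.mem_ker, ← hep]
    exact (map_eq_zero_iff _ (algebraMap (F0 x Γ) K).injective).symm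
  have hytop : ∀ z : F0 x Γ, z ∈ IntermediateField.adjoin ℂ (Set.range fun i => (y i : F0 x Γ)) := by
    intro z
    have h1 : (IntermediateField.adjoin ℂ (Set.range fun i => (y i : F0 x Γ))).map (F0 x Γ).val =
        IntermediateField.adjoin ℂ ((F0 x Γ).val '' (Set.range fun i => (y i : F0 x Γ))) :=
      IntermediateField.adjoin_map _ _ _
    have h2 : F0 x Γ ≤ IntermediateField.adjoin ℂ ((F0 x Γ).val '' (Set.range fun i => (y i : F0 x Γ))) := by
      conv_lhs => unfold F0
      rw [IntermediateField.adjoin_le_iff]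
      rintro _ ⟨m, hm, rfl⟩
      obtain ⟨c, rfl⟩ := (hγ m).1 hm
      rw [xm_comb]
      change ((∏ i, xm x (γ i) ^ c i : Kˣ) : K) ∈ IntermediateField.adjoin ℂ
        ((F0 x Γ).val '' (Set.range fun i => (y i : F0 x Γ)))
      rw [Units.coe_prod]
      refine prod_mem fun i _ => ?_
      rw [Units.val_zpow_eq_zpow_val]
      refine zpow_mem ?_ _
      exact IntermediateField.subset_adjoin _ _ ⟨_, ⟨i, rfl⟩, rfl⟩
    have h3 := h2 z.2
    rw [← h1] at h3
    obtain ⟨z', hz', hzz⟩ := h3
    have : z' = z := Subtype.ext hzz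
    rw [← this]
    exact hz'
  have hyalg : ∀ z : F0 x Γ,
      IsAlgebraic (IntermediateField.adjoin ℂ (Set.range fun i => (y i : F0 x Γ))) z := fun z =>
    isAlgebraic_algebraMap (⟨z, hytop z⟩ : IntermediateField.adjoin ℂ (Set.range fun i => (y i : F0 x Γ)))
  -- the stabilizer of the variety of `y` is finite
  have hstab : ∀ l : Fin ρ → ℤ, l ≠ 0 →
      ∃ g ∈ RingHom.ker (ep y), ∃ k, wpart l k g ∉ RingHom.ker (ep y) := by
    intro l hl
    by_contra hcon
    push Not at hcon
    have h1 := hΓmin (perp l) (perp_sat l) (by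
      intro g hg q
      obtain ⟨k, hk⟩ := comp_perp l q g
      rw [hk, ← hker]
      exact hcon g ((hker g).2 hg) k)
    apply hl
    funext i
    have h2 : (Pi.single i 1 : Fin ρ → ℤ) ∈ Γ' := by
      rw [hΓ']
      rw [Finset.sum_eq_single i]
      · rw [Pi.single_eq_same, one_smul]
        exact hγΓ i
      · intro j _ hj
        rw [Pi.single_eq_of_ne hj, zero_smul]
      · intro h
        exact absurd (Finset.mem_univ _) h
    have h3 := mem_perp.1 (h1 h2)
    rw [Finset.sum_eq_single i] at h3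
    · rw [Pi.single_eq_same, mul_one] at h3
      exact h3
    · intro j _ hj
      rw [Pi.single_eq_of_ne hj, mul_zero]
    · intro h
      exact absurd (Finset.mem_univ _) h
  obtain ⟨s, hsind, θ, hθ, hθmin⟩ := hgV (F0 x Γ) ρ a y hyalg ha hstab
  have hyb : IsTranscendenceBasis ℂ (fun i => (y (s i) : F0 x Γ)) := by
    refine hsind.isTranscendenceBasis_of_trdeg_le_of_finite ?_
    rw [ha, Cardinal.mk_fin]
  -- the polynomials
  have hpoly : ∀ j, ∃ (M : ℕ) (V : MvPolynomial (Fin b) (F0 x Γ)),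
      ep x (F j) * (∏ j, (xm x (bt j) : K)) ^ M = aeval (fun j => (xm x (bt j) : K)) V := fun j =>
    Pool.Agent.Y290.OG.to_poly x Γ bt co hmon (F j)
  choose M V hV using hpoly
  have hX0 : (∏ i, (xm x (bt i) : K)) ≠ 0 := Finset.prod_ne_zero_iff.2 fun i _ => Units.ne_zero _
  have hV0 : ∀ j, V j ≠ 0 := by
    intro j h0
    have h1 := hV j
    rw [h0, map_zero] at h1
    exact mul_ne_zero (hF j) (pow_ne_zero _ hX0) h1
  obtain ⟨g, H, S, hsq, hHS, hHom, hprime⟩ := hbad (F0 x Γ) b r V e hV0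
  have hg0 : g ≠ 0 := hsq.ne_zero
  have hnh : ∀ l' : Fin b → ℤ, l' ≠ 0 → ¬ HomL l' g := by
    intro l' hl' hh
    exact hred (redL_of hlift x F e hF Γ hhom bt co hs M V hV H S hHS l' hl' (hHom l' hh))
  have hu := hgK (F0 x Γ) K b (fun j => (xm x (bt j) : K)) g hai htop hg0 hnh
  have hgx : aeval (fun j => (xm x (bt j) : K)) g ≠ 0 := by
    intro h
    exact hg0 ((injective_iff_map_eq_zero _).1 hai g h)
  subst hab
  refine core_lg y (fun j => xm x (bt j)) s ha hyb hXb θ hθ hθmin g hgx hu _ ?_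
  intro P hP
  rw [not_or, not_exists, not_exists] at hP
  obtain ⟨hP1, hP2⟩ := hP
  have hx0 : ∀ i, P.ord (x i : K) = 0 := fun i => not_not.1 (hP1 i)
  have hy0 : ∀ i, P.ord (algebraMap (F0 x Γ) K (y i)) = 0 := fun i => by
    rw [hyv]
    exact ord_xm P x hx0 _
  have hXo : ∀ i, P.ord (xm x (bt i) : K) = 0 := fun i => ord_xm P x hx0 _
  refine ⟨hy0, hXo, ?_⟩
  rcases hdeep (F0 x Γ) K ρ a b y (fun j => xm x (bt j)) g hyalg ha hai htop hg0 hsq P hy0 hXo with
    h1 | h1 | h1
  · exact Or.inl h1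
  · exact Or.inr h1
  · exfalso
    obtain ⟨p, hp, hpg, _, hord⟩ := h1
    obtain ⟨_, j, t, A, hA, hpA, hndvd⟩ := hprime p hp hpg
    have h2 := hord A t hpA
    rw [← hA, ← hV j, P.ord_mul (hF j) (pow_ne_zero _ hX0), P.ord_pow] at h2
    have h3 : P.ord (∏ i, (xm x (bt i) : K)) = 0 := by
      have h4 : ∀ s : Finset (Fin b), P.ord (∏ i ∈ s, (xm x (bt i) : K)) = 0 := by
        intro s
        induction s using Finset.induction_on with
        | empty => rw [Finset.prod_empty, P.ord_one]
        | insert i s hi ih =>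
          rw [Finset.prod_insert hi, P.ord_mul (Units.ne_zero _)
            (Finset.prod_ne_zero_iff.2 fun i _ => Units.ne_zero _), ih, hXo i, add_zero]
      exact h4 Finset.univ
    rw [h3, mul_zero, add_zero] at h2
    have h5 := not_not.1 (hP2 j)
    rw [h2] at h5
    exact hndvd (by exact_mod_cast h5)

end Pool.Agent.Y968.KZ
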