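import Pool.Agent.W602.GT.Defs
import Pool.Agent.W602.GT.Der
import Pool.Agent.Y290.KC.Core

set_option autoImplicit false

/-!
Project KZ (helper192), job KZ10, part 1: bicanonical forms on subvarieties of tori with divisors, in
abstract form.
-/

namespace Pool.Agent.Y968.KZ

open FF MvPolynomial Pool.Agent.W602.GT Pool.Agent.Y290.KC

section basic

variable {K : Type} [Field K] [Algebra ℂ K] {n : ℕ}

theorem W_mul (x : Fin n → Kˣ) (A : Matrix (Fin n) (Fin n) K) (D : Fin n → Derivation ℂ K K) :
    W x (fun i => ∑ j, A i j • D j) = A * W x D := by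
  ext i k
  have h1 : ∀ s : Finset (Fin n), (∑ j ∈ s, A i j • D j) (x k : K) =
      ∑ j ∈ s, A i j * D j (x k : K) := by
    intro s
    classical
    induction s using Finset.induction_on with
    | empty => simp
    | insert a s ha ih => rw [Finset.sum_insert ha, Finset.sum_insert ha, Derivation.add_apply, ih,
        Derivation.smul_apply, smul_eq_mul]
  rw [Matrix.mul_apply]
  simp only [W, Matrix.of_apply]
  rw [h1, Finset.sum_div]
  exact Finset.sum_congr rfl fun j _ => mul_div_assoc _ _ _

theorem pluri_dd (x x' : Fin n → Kˣ) :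
    IsPluri (k := ℂ) 2 (fun D => (W x D).det * (W x' D).det) := by
  intro A D
  beta_reduce
  rw [W_mul, W_mul, Matrix.det_mul, Matrix.det_mul]
  ring

theorem pluri_du (x : Fin n → Kˣ) (u : K) :
    IsPluri (k := ℂ) 2 (fun D => (W x D).det * (W x D).det * u) := by
  intro A D
  beta_reduce
  rw [W_mul, Matrix.det_mul]
  ring

/-- logarithmic type -/
theorem W_log (x : Fin n → Kˣ) (P : Place ℂ K) (D : Fin n → Derivation ℂ K K)
    (hD : ∀ i, DerLog P (D i)) (i k : Fin n) : P.Reg (W x D i k) := hD i _

theorem W_reg (x : Fin n → Kˣ) (P : Place ℂ K) (hx : ∀ i, P.ord (x i : K) = 0)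
    (D : Fin n → Derivation ℂ K K) (hD : ∀ i, DerReg P (D i)) (i k : Fin n) :
    P.Reg (W x D i k) := by
  have : W x D i k = D i (x k : K) * (x k : K)⁻¹ := div_eq_mul_inv _ _
  rw [this]
  exact P.reg_mul (hD i _ (Or.inr (hx k).ge)) (Or.inr (by rw [P.ord_inv, hx k]; simp))

/-- the logarithmic derivatives of any function have at most a simple pole -/
theorem ld_reg (P : Place ℂ K) (D : Derivation ℂ K K) (hD : DerReg P D) (gx : K) (hg0 : gx ≠ 0)
    (τ : K) (hτ0 : τ ≠ 0) (hτ : P.ord τ = 1) : P.Reg (τ * (D gx / gx)) := by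
  obtain ⟨m, hm⟩ : ∃ m : ℤ, m = P.ord gx := ⟨_, rfl⟩
  set w : K := gx * (τ ^ m)⁻¹ with hw
  have hτm : τ ^ m ≠ 0 := zpow_ne_zero _ hτ0
  have hw0 : w ≠ 0 := mul_ne_zero hg0 (inv_ne_zero hτm)
  have hgw : gx = τ ^ m * w := by
    rw [hw, mul_comm gx, ← mul_assoc, mul_inv_cancel₀ hτm, one_mul]
  have hwo : P.ord w = 0 := by
    rw [hw, P.ord_mul hg0 (inv_ne_zero hτm), P.ord_inv, P.ord_zpow, hτ, ← hm]
    ring
  have e : τ * (D gx / gx) = algebraMap ℂ K (m : ℂ) * D τ + τ * (D w * w⁻¹) := by
    have e1 : D gx = τ ^ m * D w + w * (m * τ ^ (m - 1) * D τ) := by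
      conv_lhs => rw [hgw]
      rw [Derivation.leibniz, Derivation.leibniz_zpow]
      simp only [smul_eq_mul, zsmul_eq_mul]
      ring
    rw [e1]
    conv_lhs => rw [hgw]
    rw [zpow_sub_one₀ hτ0, map_intCast]
    field_simp
    ring
  rw [e]
  refine P.reg_add (P.reg_mul (P.reg_const _) (hD _ (Or.inr (by rw [hτ]; norm_num)))) ?_
  refine P.reg_mul (Or.inr (by rw [hτ]; norm_num)) (P.reg_mul (hD _ (Or.inr hwo.ge)) ?_)
  exact Or.inr (by rw [P.ord_inv, hwo]; simp)

end basic

section rel

variable {k K : Type} [Field k] [Field K] [Algebra ℂ k] [Algebra ℂ K] [Algebra k K]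
  [IsScalarTower ℂ k K]

/-- derivations which vanish on a transcendence basis -/
theorem der_zero {ι : Type} (t : ι → k) (ht : IsTranscendenceBasis ℂ t) (D : Derivation ℂ k K)
    (h : ∀ i, D (t i) = 0) : D = 0 := by
  ext f
  rw [Derivation.zero_apply, ← Module.forall_dual_apply_eq_zero_iff k]
  intro φ
  have h1 : (φ.compDer D : Derivation ℂ k k) = 0 := by
    refine der_eq_zero _ (Set.range t) ht.isAlgebraic_field ?_
    rintro _ ⟨i, rfl⟩
    change φ (D (t i)) = 0
    rw [h i, map_zero]
  exact congrArg (fun E : Derivation ℂ k k => E f) h1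

/-- the restriction of a derivation -/
noncomputable def res (D : Derivation ℂ K K) : Derivation ℂ k K := D.compAlgebraMap k

theorem res_apply (D : Derivation ℂ K K) (c : k) :
    (res D : Derivation ℂ k K) c = D (algebraMap k K c) := rfl

/-- derivations which kill the coefficients -/
theorem der_aeval {b : ℕ} (X : Fin b → K) (D : Derivation ℂ K K) (hk : ∀ c : k, D (algebraMap k K c) = 0)
    (i : Fin b) (δ : K) (hX : ∀ j, D (X j) = if i = j then δ * X i else 0)
    (g : MvPolynomial (Fin b) k) :
    D (aeval X g) = δ * aeval X (MvPolynomial.X i * pderiv i g) := by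
  induction g using MvPolynomial.induction_on with
  | C c => rw [aeval_C, hk, pderiv_C, mul_zero, map_zero, mul_zero]
  | add p q hp hq => rw [map_add, map_add, hp, hq, map_add, mul_add, map_add, mul_add]
  | mul_X p j hp =>
    rw [map_mul, aeval_X, Derivation.leibniz, hp, hX j, Derivation.leibniz, pderiv_X]
    simp only [smul_eq_mul, map_mul, map_add, aeval_X]
    by_cases hij : i = j
    · subst hij
      simp only [if_true, Pi.single_eq_same, map_one]
      ring
    · simp only [if_neg hij]
      rw [Pi.single_eq_of_ne (Ne.symm hij), map_zero]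
      ring

variable {a b : ℕ}

/-- Cramer's rule -/
theorem cramerZ (x : Fin a → kˣ) (hx : IsTranscendenceBasis ℂ (fun i => (x i : k))) (X : Fin b → Kˣ)
    (g : MvPolynomial (Fin b) k) (z : Fin (a + b) → Kˣ)
    (hz1 : ∀ i, (z (Fin.castAdd b i) : K) = algebraMap k K (x i))
    (hz2 : ∀ i, (z (Fin.natAdd a i) : K) = X i)
    (D : Fin (a + b) → Derivation ℂ K K) (i : Fin b) :
    (W z D).det * (aeval (fun i => (X i : K)) (MvPolynomial.X i * pderiv i g) /
        aeval (fun i => (X i : K)) g) =
      ∑ j, (W z D).adjugate (Fin.natAdd a i) j *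
        (D j (aeval (fun i => (X i : K)) g) / aeval (fun i => (X i : K)) g) := by
  set adj := (W z D).adjugate with hadj
  set θ : Derivation ℂ K K := ∑ j, adj (Fin.natAdd a i) j • D j with hθ
  have hsum : ∀ (s : Finset (Fin (a + b))) (f : K), (∑ j ∈ s, adj (Fin.natAdd a i) j • D j) f =
      ∑ j ∈ s, adj (Fin.natAdd a i) j * D j f := by
    intro s f
    classical
    induction s using Finset.induction_on with
    | empty => simp
    | insert c s hc ih => rw [Finset.sum_insert hc, Finset.sum_insert hc, Derivation.add_apply, ih,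
        Derivation.smul_apply, smul_eq_mul]
  have hz : ∀ j, θ (z j : K) = if Fin.natAdd a i = j then (W z D).det * (z j : K) else 0 := by
    intro j
    have h1 : (adj * W z D) (Fin.natAdd a i) j = if Fin.natAdd a i = j then (W z D).det else 0 := by
      rw [hadj, Matrix.adjugate_mul, Matrix.smul_apply, Matrix.one_apply, smul_eq_mul]
      split_ifs <;> simp
    rw [Matrix.mul_apply] at h1
    rw [hθ, hsum]
    have h2 : ∑ l, adj (Fin.natAdd a i) l * D l (z j : K) =
        (∑ l, adj (Fin.natAdd a i) l * W z D l j) * (z j : K) := by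
      rw [Finset.sum_mul]
      refine Finset.sum_congr rfl fun l _ => ?_
      have : D l (z j : K) = W z D l j * (z j : K) := by
        simp only [W, Matrix.of_apply]
        rw [div_mul_cancel₀ _ (z j).ne_zero]
      rw [this, mul_assoc]
    rw [h2, h1]
    split_ifs <;> simp
  have hk : ∀ c : k, θ (algebraMap k K c) = 0 := by
    intro c
    have h1 : (res θ : Derivation ℂ k K) = 0 := by
      refine der_zero _ hx _ fun j => ?_
      rw [res_apply, ← hz1, hz, if_neg]
      intro h
      have := congrArg Fin.val h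
      simp only [Fin.val_natAdd, Fin.val_castAdd] at this
      omega
    rw [← res_apply, h1, Derivation.zero_apply]
  have h3 := der_aeval (fun i => (X i : K)) θ hk i (W z D).det (by
    intro j
    rw [← hz2 j, hz]
    by_cases hij : i = j
    · subst hij
      rw [if_pos rfl, if_pos rfl, hz2]
    · rw [if_neg hij, if_neg]
      intro h
      exact hij (Fin.natAdd_injective _ _ h)) g
  have h4 := hsum Finset.univ (aeval (fun i => (X i : K)) g)
  rw [← hθ, h3] at h4
  rw [← mul_div_assoc, h4, Finset.sum_div]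
  exact Finset.sum_congr rfl fun j _ => mul_div_assoc _ _ _

end rel

end Pool.Agent.Y968.KZ
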