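import Pool.Agent.Y968.KZ.Core
import Pool.Agent.Y192.OG.EDefs

set_option autoImplicit false

/-!
Project KZ (helper192), job KZ10, part 2: log general type from the Gauss maps.
-/

namespace Pool.Agent.Y968.KZ

open FF MvPolynomial Pool.Agent.W602.GT Pool.Agent.Y290.KC Pool.Agent.Y192.OG

theorem exists_sigma {k : Type} [Field k] [Algebra ℂ k] {a : ℕ} (htr : Algebra.trdeg ℂ k = a)
    {ι : Type} (r : ι → k)
    (h : ∀ z : k, IsAlgebraic (IntermediateField.adjoin ℂ (Set.range r)) z) :
    ∃ σ : Fin a → ι, IsTranscendenceBasis ℂ (fun i => r (σ i)) := by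
  have h1 : Algebra.IsAlgebraic (IntermediateField.adjoin ℂ (Set.range r)) k := ⟨h⟩
  have h2 : Algebra.IsAlgebraic (Algebra.adjoin ℂ (Set.range r)) k := by
    rw [← IntermediateField.isAlgebraic_adjoin_iff_top]
    exact h1
  obtain ⟨t, ht, hb⟩ := exists_isTranscendenceBasis_subset (R := ℂ) (Set.range r)
  have hc := hb.cardinalMk_eq_trdeg
  rw [htr] at hc
  have h3 : Cardinal.mk t = Cardinal.mk (Fin a) := by rw [hc, Cardinal.mk_fin]
  obtain ⟨e⟩ := Cardinal.eq.1 h3
  have h4 : ∀ i : Fin a, ∃ j : ι, r j = (e.symm i : k) := fun i => ht (e.symm i).2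
  choose σ hσ using h4
  refine ⟨σ, ?_⟩
  have h5 : (fun i => r (σ i)) = (fun x : t => (x : k)) ∘ e.symm := by
    funext i
    exact hσ i
  rw [h5, isTranscendenceBasis_equiv]
  exact hb

section rel

variable {k K : Type} [Field k] [Field K] [Algebra ℂ k] [Algebra ℂ K] [Algebra k K]
  [IsScalarTower ℂ k K]

/-- units of the subfield -/
def ym (y : kˣ) : Kˣ := Units.map (algebraMap k K : k →* K) y

theorem ym_val (y : kˣ) : ((ym y : Kˣ) : K) = algebraMap k K y := rfl

variable {N a b : ℕ}

/-- the functions -/
def zz (y : Fin N → kˣ) (X : Fin b → Kˣ) (s : Fin a → Fin N) : Fin (a + b) → Kˣ :=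
  Fin.append (fun i => ym (y (s i))) X

theorem zz_left (y : Fin N → kˣ) (X : Fin b → Kˣ) (s : Fin a → Fin N) (i : Fin a) :
    zz y X s (Fin.castAdd b i) = ym (y (s i)) := Fin.append_left _ _ _

theorem zz_right (y : Fin N → kˣ) (X : Fin b → Kˣ) (s : Fin a → Fin N) (i : Fin b) :
    zz y X s (Fin.natAdd a i) = X i := Fin.append_right _ _ _

theorem zz_basis (y : Fin N → kˣ) (X : Fin b → Kˣ) (s : Fin a → Fin N)
    (hy : IsTranscendenceBasis ℂ (fun i => (y (s i) : k)))
    (hX : IsTranscendenceBasis k (fun i => (X i : K))) :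
    IsTranscendenceBasis ℂ (fun i => (zz y X s i : K)) := by
  have h := hy.sumElim_comp hX
  refine (isTranscendenceBasis_equiv' (finSumFinEquiv.symm.trans (Equiv.sumComm _ _)) ?_).2 h
  funext i
  refine Fin.addCases (fun i => ?_) (fun i => ?_) i
  · rw [zz_left]
    simp [ym_val]
  · rw [zz_right]
    simp

/-- the determinants -/
theorem block (y : Fin N → kˣ) (X : Fin b → Kˣ) (s s' : Fin a → Fin N)
    (hy : IsTranscendenceBasis ℂ (fun i => (y (s i) : k))) (θ : Fin a → Derivation ℂ k k)
    (hθ : ∀ i j, θ i (y (s j) : k) = if i = j then (y (s j) : k) else 0)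
    (D : Fin (a + b) → Derivation ℂ K K) (hD : W (zz y X s) D = 1) :
    (W (zz y X s') D).det = algebraMap k K
      (Matrix.of fun i j : Fin a => θ i (y (s' j) : k) / (y (s' j) : k)).det := by
  classical
  have hDz : ∀ i j, D i (zz y X s j : K) = if i = j then (zz y X s j : K) else 0 := by
    intro i j
    have h1 : W (zz y X s) D i j = (1 : Matrix (Fin (a + b)) (Fin (a + b)) K) i j := by rw [hD]
    simp only [W, Matrix.of_apply, Matrix.one_apply] at h1
    rw [div_eq_iff (Units.ne_zero _)] at h1
    rw [h1]
    split_ifs <;> simp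
  have h1 : ∀ (i : Fin a) (c : k), D (Fin.castAdd b i) (algebraMap k K c) = algebraMap k K (θ i c) := by
    intro i c
    have h2 : (res (D (Fin.castAdd b i)) : Derivation ℂ k K) - (Algebra.linearMap k K).compDer (θ i) = 0 := by
      refine der_zero _ hy _ fun j => ?_
      rw [Derivation.sub_apply, res_apply, ← ym_val (K := K), ← zz_left y X s j, hDz]
      change _ - algebraMap k K (θ i (y (s j))) = 0
      rw [hθ, zz_left, ym_val]
      by_cases hij : i = j
      · subst hij
        simp
      · rw [if_neg hij, if_neg, map_zero, sub_zero]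
        intro h
        exact hij (Fin.castAdd_injective _ _ h)
    have h3 := congrArg (fun E : Derivation ℂ k K => E c) h2
    simp only [Derivation.sub_apply, Derivation.zero_apply] at h3
    rw [sub_eq_zero, res_apply] at h3
    exact h3
  have h2 : ∀ (i : Fin b) (c : k), D (Fin.natAdd a i) (algebraMap k K c) = 0 := by
    intro i c
    have h2 : (res (D (Fin.natAdd a i)) : Derivation ℂ k K) = 0 := by
      refine der_zero _ hy _ fun j => ?_
      rw [res_apply, ← ym_val (K := K), ← zz_left y X s j, hDz, if_neg]
      intro h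
      have := congrArg Fin.val h
      simp only [Fin.val_natAdd, Fin.val_castAdd] at this
      omega
    rw [← res_apply, h2, Derivation.zero_apply]
  have hblock : (W (zz y X s') D).submatrix finSumFinEquiv finSumFinEquiv =
      Matrix.fromBlocks ((Matrix.of fun i j : Fin a => θ i (y (s' j) : k) / (y (s' j) : k)).map
        (algebraMap k K)) 0 0 1 := by
    ext i j
    rcases i with i | i <;> rcases j with j | j
    · simp only [Matrix.submatrix_apply, finSumFinEquiv_apply_left, Matrix.fromBlocks_apply₁₁,
        Matrix.map_apply, Matrix.of_apply, W]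
      rw [zz_left, ym_val, h1, map_div₀]
    · simp only [Matrix.submatrix_apply, finSumFinEquiv_apply_left, finSumFinEquiv_apply_right,
        Matrix.fromBlocks_apply₁₂, Matrix.of_apply, W, Matrix.zero_apply]
      have h3 := hDz (Fin.castAdd b i) (Fin.natAdd a j)
      rw [zz_right] at h3 ⊢
      rw [h3, if_neg, zero_div]
      intro h
      have := congrArg Fin.val h
      simp only [Fin.val_natAdd, Fin.val_castAdd] at this
      omega
    · simp only [Matrix.submatrix_apply, finSumFinEquiv_apply_left, finSumFinEquiv_apply_right,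
        Matrix.fromBlocks_apply₂₁, Matrix.of_apply, W, Matrix.zero_apply]
      rw [zz_left, ym_val, h2, zero_div]
    · simp only [Matrix.submatrix_apply, finSumFinEquiv_apply_right,
        Matrix.fromBlocks_apply₂₂, Matrix.of_apply, W, Matrix.one_apply]
      have h3 := hDz (Fin.natAdd a i) (Fin.natAdd a j)
      rw [zz_right] at h3 ⊢
      rw [h3]
      by_cases hij : i = j
      · subst hij
        rw [if_pos rfl, if_pos rfl, div_self (Units.ne_zero _)]
      · rw [if_neg hij, if_neg, zero_div]
        intro h
        exact hij (Fin.natAdd_injective _ _ h)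
  rw [← Matrix.det_submatrix_equiv_self finSumFinEquiv, hblock, Matrix.det_fromBlocks_zero₂₁,
    Matrix.det_one, mul_one, RingHom.map_det]
  rfl

theorem core_lg (y : Fin N → kˣ) (X : Fin b → Kˣ) (s : Fin a → Fin N)
    (htr : Algebra.trdeg ℂ k = a)
    (hy : IsTranscendenceBasis ℂ (fun i => (y (s i) : k)))
    (hX : IsTranscendenceBasis k (fun i => (X i : K)))
    (θ : Fin a → Derivation ℂ k k)
    (hθ : ∀ i j, θ i (y (s j) : k) = if i = j then (y (s j) : k) else 0)
    (hmin : ∀ z : k, IsAlgebraic (IntermediateField.adjoin ℂ (Set.range fun s' : Fin a → Fin N =>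
        (Matrix.of fun i j : Fin a => θ i (y (s' j) : k) / (y (s' j) : k)).det)) z)
    (g : MvPolynomial (Fin b) k) (hg : aeval (fun i => (X i : K)) g ≠ 0)
    (hu : AlgebraicIndependent k (fun i => aeval (fun i => (X i : K)) (MvPolynomial.X i * pderiv i g) /
      aeval (fun i => (X i : K)) g))
    (Bd : Place ℂ K → Prop)
    (hBd : ∀ P : Place ℂ K, ¬ Bd P → (∀ i, P.ord (algebraMap k K (y i)) = 0) ∧
      (∀ i, P.ord (X i : K) = 0) ∧
      ((∀ i, P.Reg (aeval (fun i => (X i : K)) (MvPolynomial.X i * pderiv i g) /
        aeval (fun i => (X i : K)) g)) ∨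
      (∀ (z : Fin (a + b) → K), (∀ i, (∃ m : Fin N → ℤ, z i = algebraMap k K (xm y m : kˣ)) ∨
        ∃ j, z i = X j) →
      ∀ D : Fin (a + b) → Derivation ℂ K K, (∀ i, DerReg P (D i)) →
      (Matrix.of fun i j => D i (z j)).det = 0 ∨ 1 ≤ P.ord (Matrix.of fun i j => D i (z j)).det))) :
    LogGeneralType ℂ K (a + b) Bd := by
  classical
  set u : Fin b → K := fun i => aeval (fun i => (X i : K)) (MvPolynomial.X i * pderiv i g) /
      aeval (fun i => (X i : K)) g with hudef
  set gx : K := aeval (fun i => (X i : K)) g with hgx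
  obtain ⟨σ, hσ⟩ := exists_sigma htr _ hmin
  have hb := zz_basis y X s hy hX
  obtain ⟨D0, hD0⟩ := theta (zz y X s) hb
  let om0 : (Fin (a + b) → Derivation ℂ K K) → K := fun D =>
    (W (zz y X s) D).det * (W (zz y X s) D).det
  let om1 : Fin a → (Fin (a + b) → Derivation ℂ K K) → K := fun i D =>
    (W (zz y X s) D).det * (W (zz y X (σ i)) D).det
  let om2 : Fin b → (Fin (a + b) → Derivation ℂ K K) → K := fun i D =>
    (W (zz y X s) D).det * (W (zz y X s) D).det * u i
  have hcr : ∀ (D : Fin (a + b) → Derivation ℂ K K) (i : Fin b),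
      (W (zz y X s) D).det * u i =
        ∑ j, (W (zz y X s) D).adjugate (Fin.natAdd a i) j * (D j gx / gx) := fun D i =>
    cramerZ (fun i => y (s i)) hy X g (zz y X s) (fun i => by rw [zz_left, ym_val])
      (fun i => by rw [zz_right]) D i
  refine ⟨?_, 2, by norm_num, Fin.cons om0 (Fin.append om1 om2), ?_, ?_, ?_, D0, ?_, ?_⟩
  · have := hb.cardinalMk_eq_trdeg
    rw [← this]
    simp
  · intro j
    refine Fin.cases ?_ (fun j => ?_) j
    · rw [Fin.cons_zero]
      exact pluri_dd _ _
    · rw [Fin.cons_succ]
      refine Fin.addCases (fun i => ?_) (fun i => ?_) j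
      · rw [Fin.append_left]
        exact pluri_dd _ _
      · rw [Fin.append_right]
        exact pluri_du _ _
  · intro P _ j D hD
    have hW := W_log (zz y X s) P D hD
    have hd := reg_det P _ hW
    refine Fin.cases ?_ (fun j => ?_) j
    · rw [Fin.cons_zero]
      exact P.reg_mul hd hd
    · rw [Fin.cons_succ]
      refine Fin.addCases (fun i => ?_) (fun i => ?_) j
      · rw [Fin.append_left]
        exact P.reg_mul hd (reg_det P _ (W_log (zz y X (σ i)) P D hD))
      · rw [Fin.append_right]
        change P.Reg ((W (zz y X s) D).det * (W (zz y X s) D).det * u i)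
        rw [mul_assoc, hcr]
        exact P.reg_mul hd (reg_sum P _ _ fun i _ => P.reg_mul (reg_adj P _ hW _ _) (hD i _))
  · intro P _ hP j D hD
    obtain ⟨hy0, hX0, hor⟩ := hBd P hP
    have hz : ∀ (s' : Fin a → Fin N) (i : Fin (a + b)), P.ord (zz y X s' i : K) = 0 := by
      intro s' i
      refine Fin.addCases (fun i => ?_) (fun i => ?_) i
      · rw [zz_left]; exact hy0 _
      · rw [zz_right]; exact hX0 _
    have hW := W_reg (zz y X s) P (hz s) D hD
    have hd := reg_det P _ hW
    refine Fin.cases ?_ (fun j => ?_) j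
    · rw [Fin.cons_zero]
      exact P.reg_mul hd hd
    · rw [Fin.cons_succ]
      refine Fin.addCases (fun i => ?_) (fun i => ?_) j
      · rw [Fin.append_left]
        exact P.reg_mul hd (reg_det P _ (W_reg (zz y X (σ i)) P (hz _) D hD))
      · rw [Fin.append_right]
        change P.Reg ((W (zz y X s) D).det * (W (zz y X s) D).det * u i)
        rcases hor with hu' | hdeep
        · exact P.reg_mul (P.reg_mul hd hd) (hu' i)
        · rw [mul_assoc, hcr]
          obtain ⟨τ, hτ0, hτ⟩ := P.surj
          have hdet : P.Reg ((W (zz y X s) D).det / τ) := by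
            rw [W_eq, mul_div_right_comm]
            refine P.reg_mul ?_ (reg_prod P _ _ fun k _ => Or.inr (by rw [P.ord_inv, hz]; simp))
            have h3 := hdeep (fun i => (zz y X s i : K)) (by
              intro i
              refine Fin.addCases (fun i => ?_) (fun i => ?_) i
              · left
                refine ⟨Pi.single (s i) 1, ?_⟩
                rw [zz_left, ym_val]
                congr 2
                unfold xm
                rw [Finset.prod_eq_single (s i)]
                · rw [Pi.single_eq_same, zpow_one]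
                · intro j _ hj
                  rw [Pi.single_eq_of_ne hj, zpow_zero]
                · intro h
                  exact absurd (Finset.mem_univ _) h
              · right
                exact ⟨i, by rw [zz_right]⟩) D hD
            rcases h3 with h3 | h3
            · rw [h3, zero_div]; exact P.reg_zero
            · by_cases h4 : (Matrix.of fun i k : Fin (a + b) => D i (zz y X s k : K)).det = 0
              · rw [h4, zero_div]; exact P.reg_zero
              · right
                rw [P.ord_div h4 hτ0, hτ]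
                omega
          have e2 : (W (zz y X s) D).det * ∑ j, (W (zz y X s) D).adjugate (Fin.natAdd a i) j * (D j gx / gx) =
              ((W (zz y X s) D).det / τ) *
                ∑ j, (W (zz y X s) D).adjugate (Fin.natAdd a i) j * (τ * (D j gx / gx)) := by
            have e3 : ∑ j, (W (zz y X s) D).adjugate (Fin.natAdd a i) j * (τ * (D j gx / gx)) =
                τ * ∑ j, (W (zz y X s) D).adjugate (Fin.natAdd a i) j * (D j gx / gx) := by
              rw [Finset.mul_sum]
              exact Finset.sum_congr rfl fun i _ => by ring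
            rw [e3, ← mul_assoc, div_mul_cancel₀ _ hτ0]
          rw [e2]
          exact P.reg_mul hdet (reg_sum P _ _ fun j _ => P.reg_mul (reg_adj P _ hW _ _)
            (ld_reg P (D j) (hD j) gx hg τ hτ0 hτ))
  · rw [Fin.cons_zero]
    change (W (zz y X s) D0).det * (W (zz y X s) D0).det ≠ 0
    rw [hD0, Matrix.det_one, mul_one]
    exact one_ne_zero
  · have h1 := hσ.1.sumElim_comp hu
    have h2 := h1.comp (finSumFinEquiv.symm.trans (Equiv.sumComm (Fin a) (Fin b)))
      (Equiv.injective _)
    refine Eq.subst (motive := fun v => AlgebraicIndependent ℂ v) ?_ h2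
    symm
    funext j
    rw [Fin.cons_zero, Fin.cons_succ]
    have hom0 : om0 D0 = 1 := by
      change (W (zz y X s) D0).det * (W (zz y X s) D0).det = 1
      rw [hD0, Matrix.det_one, mul_one]
    rw [hom0, div_one]
    refine Fin.addCases (fun i => ?_) (fun i => ?_) j
    · rw [Fin.append_left]
      change (W (zz y X s) D0).det * (W (zz y X (σ i)) D0).det = _
      rw [hD0, Matrix.det_one, one_mul, block y X s (σ i) hy θ hθ D0 hD0]
      simp
    · rw [Fin.append_right]
      change (W (zz y X s) D0).det * (W (zz y X s) D0).det * u i = _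
      rw [hD0, Matrix.det_one, one_mul, one_mul]
      simp [hudef]

end rel

end Pool.Agent.Y968.KZ
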