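import Pool.Agent.Y968.KZ.Form
import Pool.Agent.Y192.KC.ZDefs
import Pool.Agent.Y290.OG.Lift
import Pool.Agent.Y833.OG.Hat
import Pool.Agent.Y290.KC.Lg

set_option autoImplicit false

/-!
Project KZ (helper192), job KZ10, part 3: subvarieties of tori with divisors are of log general type
if there is no one-parameter group.
-/

namespace Pool.Agent.Y968.KZ

open FF MvPolynomial Pool.Agent.W602.GT Pool.Agent.Y290.KC Pool.Agent.Y192.OG Pool.Agent.Y192.KC
open Pool.Agent.W603.BP

section hom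

variable {N : ℕ}

/-- homogeneity for a subgroup and for weights -/
theorem wpart_mem {I : Ideal (Lau N)} {Γ : Submodule ℤ (Fin N → ℤ)} {l : Fin N → ℤ}
    (hlΓ : ∀ m ∈ Γ, ∑ i, l i * m i = 0) (hhom : ∀ g ∈ I, ∀ q, comp Γ q g ∈ I) :
    ∀ g ∈ I, ∀ k, wpart l k g ∈ I := by
  classical
  have hch : ∀ q : (Fin N → ℤ) ⧸ Γ, ∃ m, Γ.mkQ m = q := fun q => Γ.mkQ_surjective q
  choose b hb using hch
  have hlb : ∀ m, ∑ i, l i * m i = ∑ i, l i * b (Γ.mkQ m) i := by
    intro m
    have h1 : m - b (Γ.mkQ m) ∈ Γ := by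
      rw [← Submodule.Quotient.mk_eq_zero Γ]
      change Γ.mkQ (m - b (Γ.mkQ m)) = 0
      rw [map_sub, hb, sub_self]
    have h2 := hlΓ _ h1
    simp only [Pi.sub_apply, mul_sub, Finset.sum_sub_distrib] at h2
    linarith
  have hcw : ∀ (q : (Fin N → ℤ) ⧸ Γ) (k : ℤ) (g : Lau N),
      comp Γ q (wpart l k g) = if ∑ i, l i * b q i = k then comp Γ q g else 0 := by
    intro q k g
    apply AddMonoidAlgebra.coeff_injective
    ext m
    rw [comp_coeff, wpart_coeff]
    by_cases h1 : Γ.mkQ m = q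
    · rw [if_pos h1, hlb m, h1]
      by_cases h2 : ∑ i, l i * b q i = k
      · rw [if_pos h2, if_pos h2, comp_coeff, if_pos h1]
      · rw [if_neg h2, if_neg h2]
        rfl
    · rw [if_neg h1]
      by_cases h2 : ∑ i, l i * b q i = k
      · rw [if_pos h2, comp_coeff, if_neg h1]
      · rw [if_neg h2]
        rfl
  intro g hg k
  rw [← sum_comp Γ (wpart l k g)]
  refine I.sum_mem fun q _ => ?_
  rw [hcw]
  split_ifs
  · exact hhom g hg q
  · exact I.zero_mem

/-- the subgroup orthogonal to a weight -/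
def perp (l : Fin N → ℤ) : Submodule ℤ (Fin N → ℤ) where
  carrier := {m | ∑ i, l i * m i = 0}
  zero_mem' := by
    change ∑ i, l i * (0 : Fin N → ℤ) i = 0
    simp
  add_mem' := by
    intro a b ha hb
    change ∑ i, l i * (a + b) i = 0
    have ha' : ∑ i, l i * a i = 0 := ha
    have hb' : ∑ i, l i * b i = 0 := hb
    simp only [Pi.add_apply, mul_add, Finset.sum_add_distrib, ha', hb', add_zero]
  smul_mem' := by
    intro c a ha
    change ∑ i, l i * (c • a) i = 0
    have ha' : ∑ i, l i * a i = 0 := ha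
    have : ∑ i, l i * (c • a) i = c * ∑ i, l i * a i := by
      rw [Finset.mul_sum]
      refine Finset.sum_congr rfl fun i _ => ?_
      rw [Pi.smul_apply, smul_eq_mul]
      ring
    rw [this, ha', mul_zero]

theorem mem_perp {l m : Fin N → ℤ} : m ∈ perp l ↔ ∑ i, l i * m i = 0 := Iff.rfl

theorem perp_sat (l : Fin N → ℤ) : Sat (perp l) := by
  intro n m hn hm
  rw [mem_perp] at hm ⊢
  have : ∑ i, l i * (n • m) i = n * ∑ i, l i * m i := by
    rw [Finset.mul_sum]
    refine Finset.sum_congr rfl fun i _ => ?_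
    rw [Pi.smul_apply, smul_eq_mul]
    ring
  rw [this] at hm
  exact (mul_eq_zero.1 hm).resolve_left hn

theorem comp_perp (l : Fin N → ℤ) (q : (Fin N → ℤ) ⧸ perp l) (g : Lau N) :
    ∃ k, comp (perp l) q g = wpart l k g := by
  classical
  obtain ⟨m0, rfl⟩ := (perp l).mkQ_surjective q
  refine ⟨∑ i, l i * m0 i, ?_⟩
  apply AddMonoidAlgebra.coeff_injective
  ext m
  rw [comp_coeff, wpart_coeff]
  have h : (perp l).mkQ m = (perp l).mkQ m0 ↔ ∑ i, l i * m i = ∑ i, l i * m0 i := by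
    rw [← sub_eq_zero, ← map_sub, Submodule.mkQ_apply, Submodule.Quotient.mk_eq_zero, mem_perp]
    simp only [Pi.sub_apply, mul_sub, Finset.sum_sub_distrib, sub_eq_zero]
  by_cases h1 : (perp l).mkQ m = (perp l).mkQ m0
  · rw [if_pos h1, if_pos (h.1 h1)]
  · rw [if_neg h1, if_neg fun h2 => h1 (h.2 h2)]

end hom

section poly

variable {N : ℕ} {K : Type} [Field K] [Algebra ℂ K]

theorem SG_pow {Γ : Submodule ℤ (Fin N → ℤ)} {g : Lau N} (hg : Pool.Agent.Y290.OG.SG Γ g) (n : ℕ) :
    Pool.Agent.Y290.OG.SG Γ (g ^ n) := by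
  induction n with
  | zero => rw [pow_zero]; exact Pool.Agent.Y290.OG.SG.one
  | succ n ih => rw [pow_succ]; exact ih.mul hg

/-- the one-parameter group -/
theorem redL_of (hlift : St_lift) {r : ℕ} (x : Fin N → Kˣ) (F : Fin r → Lau N) (e : Fin r → ℕ)
    (hF : ∀ j, ep x (F j) ≠ 0) (Γ : Submodule ℤ (Fin N → ℤ))
    (hhom : ∀ g ∈ RingHom.ker (ep x), ∀ q, comp Γ q g ∈ RingHom.ker (ep x)) {b : ℕ}
    (bt : Fin b → Fin N → ℤ) (co : (Fin N → ℤ) →+ (Fin b → ℤ)) (hs : Splt Γ bt co)
    (M : Fin r → ℕ) (V : Fin r → MvPolynomial (Fin b) (F0 x Γ))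
    (hV : ∀ j, ep x (F j) * (∏ i, (xm x (bt i) : K)) ^ M j = aeval (fun i => (xm x (bt i) : K)) (V j))
    (H S : Fin r → MvPolynomial (Fin b) (F0 x Γ)) (hHS : ∀ j, V j = H j * S j ^ e j)
    (l' : Fin b → ℤ) (hl' : l' ≠ 0) (hH : ∀ j, HomL l' (H j)) : RedL x F e := by
  classical
  set l : Fin N → ℤ := fun i => ∑ j, l' j * co (Pi.single i 1) j with hl
  have hlm : ∀ m : Fin N → ℤ, ∑ i, l i * m i = ∑ j, l' j * co m j := by
    intro m
    have h1 : co m = ∑ i, m i • co (Pi.single i 1) := by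
      conv_lhs => rw [← Finset.univ_sum_single m]
      rw [map_sum]
      refine Finset.sum_congr rfl fun i _ => ?_
      have : (Pi.single i (m i) : Fin N → ℤ) = m i • Pi.single i 1 := by
        rw [← Pi.single_smul, smul_eq_mul, mul_one]
      rw [this, map_zsmul]
    simp only [hl, Finset.sum_mul]
    rw [Finset.sum_comm]
    refine Finset.sum_congr rfl fun j _ => ?_
    rw [h1, Finset.sum_apply, Finset.mul_sum]
    refine Finset.sum_congr rfl fun i _ => ?_
    rw [Pi.smul_apply, smul_eq_mul]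
    ring
  have hlΓ : ∀ m ∈ Γ, ∑ i, l i * m i = 0 := by
    intro m hm
    rw [hlm, (hs.ker m).2 hm]
    simp
  have hl0 : l ≠ 0 := by
    intro h0
    apply hl'
    funext j
    have h1 := hlm (bt j)
    rw [h0, hs.bt] at h1
    simp only [Pi.zero_apply, zero_mul, Finset.sum_const_zero] at h1
    rw [Finset.sum_eq_single j] at h1
    · rw [Pi.single_eq_same, mul_one] at h1
      exact h1.symm
    · intro i _ hi
      rw [Pi.single_eq_of_ne hi, mul_zero]
    · intro h
      exact absurd (Finset.mem_univ _) h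
  have hX0 : (∏ i, (xm x (bt i) : K)) ≠ 0 := Finset.prod_ne_zero_iff.2 fun i _ => Units.ne_zero _
  have haV : ∀ j, aeval (fun i => (xm x (bt i) : K)) (V j) ≠ 0 := by
    intro j
    rw [← hV j]
    exact mul_ne_zero (hF j) (pow_ne_zero _ hX0)
  have haH : ∀ j, aeval (fun i => (xm x (bt i) : K)) (H j) ≠ 0 := by
    intro j h0
    apply haV j
    rw [hHS, map_mul, h0, zero_mul]
  have haS : ∀ j, e j ≠ 0 → aeval (fun i => (xm x (bt i) : K)) (S j) ≠ 0 := by
    intro j hj h0
    apply haV j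
    rw [hHS, map_mul, map_pow, h0, zero_pow hj, mul_zero]
  obtain ⟨g0, hg0, hg0', hg⟩ := hlift N K x Γ b bt co hs
    (Finset.univ.image H ∪ Finset.univ.image S)
  have hA : ∀ j, ∃ A : Lau N, ep x A = ep x g0 * aeval (fun i => (xm x (bt i) : K)) (H j) ∧
      ∀ m ∈ A.coeff.support, ∃ c ∈ (H j).support, co m = fun i => (c i : ℤ) := fun j =>
    hg (H j) (Finset.mem_union_left _ (Finset.mem_image_of_mem _ (Finset.mem_univ j)))
  have hB : ∀ j, ∃ A : Lau N, ep x A = ep x g0 * aeval (fun i => (xm x (bt i) : K)) (S j) ∧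
      ∀ m ∈ A.coeff.support, ∃ c ∈ (S j).support, co m = fun i => (c i : ℤ) := fun j =>
    hg (S j) (Finset.mem_union_right _ (Finset.mem_image_of_mem _ (Finset.mem_univ j)))
  choose A hA1 hA2 using hA
  choose B hB1 hB2 using hB
  have hA0 : ∀ j, ep x (A j) ≠ 0 := fun j => by
    rw [hA1]
    exact mul_ne_zero hg0' (haH j)
  have ht : ∀ j, ∃ t, t ∈ (A j).coeff.support := by
    intro j
    by_contra hcon
    push Not at hcon
    apply hA0 j
    have : A j = 0 := by
      apply AddMonoidAlgebra.coeff_injective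
      ext m
      have := hcon m
      rw [Finsupp.notMem_support_iff] at this
      rw [this]
      rfl
    rw [this, map_zero]
  choose t ht using ht
  have hAw : ∀ j, ∀ m ∈ (A j).coeff.support, ∑ i, l i * m i = ∑ i, l i * t j i := by
    intro j m hm
    obtain ⟨α, hα⟩ := hH j
    obtain ⟨c, hc, hc'⟩ := hA2 j m hm
    obtain ⟨c2, hc2, hc2'⟩ := hA2 j (t j) (ht j)
    rw [hlm, hlm, hc', hc2']
    exact (hα c hc).trans (hα c2 hc2).symm
  refine ⟨l, hl0, wpart_mem hlΓ hhom, fun j => A j * AddMonoidAlgebra.single (-t j) 1,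
    fun j => g0 ^ (1 + e j), fun j => if e j = 0 then 1 else B j,
    fun j => t j - ∑ i, (M j) • bt i, fun j => ⟨?_, ?_, ?_, ?_, ?_, ?_⟩⟩
  · intro m hm
    exact hlΓ m (SG_pow hg0 _ m hm)
  · intro m hm
    obtain ⟨m1, h1, m2, h2, rfl⟩ := Pool.Agent.Y290.OG.supp_mul _ _ m hm
    rw [Pool.Agent.Y290.OG.supp_single _ _ _ h2]
    have h3 := hAw j m1 h1
    simp only [Pi.add_apply, Pi.neg_apply, mul_add, mul_neg, Finset.sum_add_distrib,
      Finset.sum_neg_distrib, h3, add_neg_cancel]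
  · rw [map_pow]
    exact pow_ne_zero _ hg0'
  · rw [map_mul, ep_single, one_smul]
    exact mul_ne_zero (hA0 j) (Units.ne_zero _)
  · beta_reduce
    split_ifs with he
    · rw [map_one]
      exact one_ne_zero
    · rw [hB1]
      exact mul_ne_zero hg0' (haS j he)
  · have hXM : (xm x (∑ i, (M j) • bt i) : K) = (∏ i, (xm x (bt i) : K)) ^ M j := by
      rw [Pool.Agent.Y290.OG.xm_sum, Units.coe_prod, ← Finset.prod_pow]
      refine Finset.prod_congr rfl fun i _ => ?_
      rw [Pool.Agent.Y290.OG.xm_nsmul, Units.val_pow_eq_pow_val]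
    have h1 : (xm x (-t j) : K) * (xm x (t j - ∑ i, (M j) • bt i) : K) *
        (∏ i, (xm x (bt i) : K)) ^ M j = 1 := by
      rw [← hXM, ← Units.val_mul, ← Units.val_mul, ← xm_add, ← xm_add]
      have : -t j + (t j - ∑ i, (M j) • bt i) + ∑ i, (M j) • bt i = 0 := by abel
      rw [this, xm_zero, Units.val_one]
    have hS' : ep x ((if e j = 0 then 1 else B j) ^ e j) =
        ep x g0 ^ e j * aeval (fun i => (xm x (bt i) : K)) (S j) ^ e j := by
      split_ifs with he
      · rw [he, pow_zero, pow_zero, pow_zero, map_one, one_mul]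
      · rw [map_pow, hB1, mul_pow]
    have hv := hV j
    rw [hHS, map_mul, map_pow] at hv
    have hXM0 : (∏ i, (xm x (bt i) : K)) ^ M j ≠ 0 := pow_ne_zero _ hX0
    rw [map_mul, map_mul, map_mul, map_mul, hS', ep_single, ep_single, one_smul, one_smul, hA1, map_pow]
    apply mul_right_cancel₀ hXM0
    calc ep x g0 ^ (1 + e j) * ep x (F j) * (∏ i, (xm x (bt i) : K)) ^ M j
        = ep x g0 ^ (1 + e j) * (ep x (F j) * (∏ i, (xm x (bt i) : K)) ^ M j) := by ring
      _ = ep x g0 ^ (1 + e j) * (aeval (fun i => (xm x (bt i) : K)) (H j) *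
            aeval (fun i => (xm x (bt i) : K)) (S j) ^ e j) := by rw [hv]
      _ = ep x g0 ^ (1 + e j) * (aeval (fun i => (xm x (bt i) : K)) (H j) *
            aeval (fun i => (xm x (bt i) : K)) (S j) ^ e j) *
            ((xm x (-t j) : K) * (xm x (t j - ∑ i, (M j) • bt i) : K) *
              (∏ i, (xm x (bt i) : K)) ^ M j) := by rw [h1, mul_one]
      _ = _ := by ring

end poly

end Pool.Agent.Y968.KZ
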